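import Mathlib

set_option autoImplicit false
open WeierstrassCurve WeierstrassCurve.Affine

namespace Pool.Agent.H.MP_d0a72d_lc

def WW : WeierstrassCurve.Affine ℚ := ⟨0, 0, 0, -36, 0⟩

abbrev E := WW.Point

theorem ns_iff (x y : ℚ) : WW.Nonsingular x y ↔ y ^ 2 = x ^ 3 - 36 * x := by
  rw [nonsingular_iff, equation_iff]
  simp only [WW]
  constructor
  · rintro ⟨h, -⟩; linarith
  · intro h
    refine ⟨by linarith, ?_⟩
    by_contra hc
    push Not at hc
    obtain ⟨h1, h2⟩ := hc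
    have hy : y = 0 := by linarith
    have hx : x ^ 2 = 12 := by linarith
    have : x * (x ^ 2 - 36) = 0 := by rw [hy] at h; linarith
    rw [hx] at this
    have : x = 0 := by linarith
    rw [this] at hx; norm_num at hx

def HasX (Q : E) (x : ℚ) : Prop := ∃ y h, Q = Point.some x y h

def pt (x y : ℚ) (h : y ^ 2 = x ^ 3 - 36 * x) : E := Point.some x y ((ns_iff x y).2 h)

theorem pt_hasX (x y : ℚ) (h : y ^ 2 = x ^ 3 - 36 * x) : HasX (pt x y h) x := ⟨y, _, rfl⟩

theorem HasX.neg {Q : E} {x : ℚ} (h : HasX Q x) : HasX (-Q) x := by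
  obtain ⟨y, h, rfl⟩ := h
  exact ⟨_, _, Point.neg_some h⟩

theorem HasX.pm {Q Q' : E} {x : ℚ} (h : HasX Q x) (h' : HasX Q' x) : Q = Q' ∨ Q = -Q' := by
  obtain ⟨y, h, rfl⟩ := h
  obtain ⟨y', h', rfl⟩ := h'
  exact Point.X_eq_iff.1 rfl

theorem HasX.uniq {Q : E} {x x' : ℚ} (h : HasX Q x) (h' : HasX Q x') : x = x' := by
  obtain ⟨y, h, rfl⟩ := h
  obtain ⟨y', h', e⟩ := h'
  injection e

theorem not_hasX_zero (x : ℚ) : ¬ HasX 0 x := by
  rintro ⟨y, h, e⟩
  exact Point.some_ne_zero h e.symm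

theorem HasX.mem {Q Q' : E} {x : ℚ} {H : AddSubgroup E} (h : HasX Q x) (h' : HasX Q' x)
    (hQ : Q' ∈ H) : Q ∈ H := by
  rcases h.pm h' with rfl | rfl
  · exact hQ
  · exact neg_mem hQ

theorem add_hasX {x1 y1 x2 y2 : ℚ} (h1 : WW.Nonsingular x1 y1) (h2 : WW.Nonsingular x2 y2)
    (hx : x1 ≠ x2) : HasX (Point.some x1 y1 h1 + Point.some x2 y2 h2)
      (((x1 * x2 - 36) * (x1 + x2) - 2 * y1 * y2) / (x1 - x2) ^ 2) := by
  rw [Point.add_of_X_ne hx]
  have e : WW.addX x1 x2 (WW.slope x1 x2 y1 y2) =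
      ((x1 * x2 - 36) * (x1 + x2) - 2 * y1 * y2) / (x1 - x2) ^ 2 := by
    rw [slope_of_X_ne hx]
    have a1 := (ns_iff _ _).1 h1
    have a2 := (ns_iff _ _).1 h2
    have : x1 - x2 ≠ 0 := sub_ne_zero.2 hx
    simp only [addX, WW]
    field_simp
    linear_combination a1 + a2
  rw [← e]
  exact ⟨_, _, rfl⟩

theorem HasX.dbl {Q : E} {x : ℚ} (h : HasX Q x) (hx : x ^ 3 - 36 * x ≠ 0) :
    HasX (Q + Q) ((x ^ 2 + 36) ^ 2 / (4 * (x ^ 3 - 36 * x))) := by
  obtain ⟨y, h, rfl⟩ := h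
  have a1 := (ns_iff _ _).1 h
  have hy : y ≠ 0 := by rintro rfl; apply hx; linarith
  have hy' : y ≠ WW.negY x y := by
    simp only [negY, WW]; intro h; apply hy; linarith
  rw [Point.add_self_of_Y_ne hy']
  have e : WW.addX x x (WW.slope x x y y) = (x ^ 2 + 36) ^ 2 / (4 * (x ^ 3 - 36 * x)) := by
    rw [slope_of_Y_ne rfl hy', ← a1]
    simp only [addX, negY, WW]
    have : y - (-y - 0 * x - 0) = 2 * y := by ring
    rw [this]
    field_simp
    linear_combination (-32 * x) * a1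
  rw [← e]
  exact ⟨_, _, rfl⟩

def T0 : E := pt 0 0 (by norm_num)

theorem HasX.addT {Q : E} {x : ℚ} (h : HasX Q x) (hx : x ≠ 0) : HasX (Q + T0) (-36 / x) := by
  obtain ⟨y, h, rfl⟩ := h
  have := add_hasX h ((ns_iff 0 0).2 (by norm_num)) hx
  have e : ((x * 0 - 36) * (x + 0) - 2 * y * 0) / (x - 0) ^ 2 = -36 / x := by
    rw [sub_zero]; field_simp; ring
  rw [e] at this
  exact this

section
variable (p : ℕ) [hp : Fact p.Prime]

theorem nle (z : ℤ) : padicNorm p z ≤ 1 := padicNorm.of_int z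

theorem norm_pow (x : ℚ) (n : ℕ) : padicNorm p (x ^ n) = padicNorm p x ^ n := by
  induction n with
  | zero => simp
  | succ n ih => rw [pow_succ, padicNorm.mul, ih, pow_succ]

theorem norm_add_le {x y c : ℚ} (hx : padicNorm p x ≤ c) (hy : padicNorm p y ≤ c) :
    padicNorm p (x + y) ≤ c := padicNorm.nonarchimedean.trans (max_le hx hy)

theorem norm_sub_le {x y c : ℚ} (hx : padicNorm p x ≤ c) (hy : padicNorm p y ≤ c) :
    padicNorm p (x - y) ≤ c := padicNorm.sub.trans (max_le hx hy)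

theorem int_add {x1 y1 x3 y3 : ℚ} (h1 : y1 ^ 2 = x1 ^ 3 - 36 * x1) (h3 : y3 ^ 2 = x3 ^ 3 - 36 * x3)
    (n1 : 1 < padicNorm p x1) (n3 : padicNorm p x3 ≤ 1) :
    padicNorm p (((x3 * x1 - 36) * (x3 + x1) - 2 * y3 * y1) / (x3 - x1) ^ 2) ≤ 1 := by
  set N := padicNorm p x1 with hN
  have c36 : padicNorm p 36 ≤ 1 := by simpa using nle p 36
  have c2 : padicNorm p 2 ≤ 1 := by simpa using nle p 2
  have z3 := padicNorm.nonneg (p := p) x3
  have e1 : padicNorm p (x3 - x1) = N := by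
    rw [sub_eq_add_neg, padicNorm.add_eq_max_of_ne (by rw [padicNorm.neg]; linarith),
      padicNorm.neg, max_eq_right (by linarith)]
  have e2 : padicNorm p (x3 * x1 - 36) ≤ N :=
    norm_sub_le p (by rw [padicNorm.mul]; nlinarith) (by linarith)
  have e3 : padicNorm p (x3 + x1) ≤ N := norm_add_le p (by linarith) le_rfl
  have e4 : padicNorm p y3 ≤ 1 := by
    have : padicNorm p (y3 ^ 2) ≤ 1 := by
      rw [h3]
      exact norm_sub_le p (by rw [norm_pow]; exact pow_le_one₀ z3 n3)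
        (by rw [padicNorm.mul]; exact mul_le_one₀ c36 z3 n3)
    rw [norm_pow] at this
    exact (pow_le_one_iff_of_nonneg (padicNorm.nonneg _) two_ne_zero).1 this
  have e5 : padicNorm p y1 ≤ N ^ 2 := by
    have hN1 : N ≤ (N ^ 2) ^ 2 := by
      calc N = N ^ 1 := (pow_one N).symm
        _ ≤ N ^ 4 := pow_le_pow_right₀ n1.le (by norm_num)
        _ = _ := by ring
    have hN3 : N ^ 3 ≤ (N ^ 2) ^ 2 := by
      calc N ^ 3 ≤ N ^ 4 := pow_le_pow_right₀ n1.le (by norm_num)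
        _ = _ := by ring
    have : padicNorm p (y1 ^ 2) ≤ (N ^ 2) ^ 2 := by
      rw [h1]
      exact norm_sub_le p (by rw [norm_pow]; exact hN3) (by rw [padicNorm.mul]; nlinarith)
    rw [norm_pow] at this
    exact (pow_le_pow_iff_left₀ (padicNorm.nonneg _) (by positivity) two_ne_zero).1 this
  rw [padicNorm.div, norm_pow, e1, div_le_one (by positivity)]
  refine norm_sub_le p ?_ ?_
  · rw [padicNorm.mul, sq]
    exact mul_le_mul e2 e3 (padicNorm.nonneg _) (by linarith)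
  · rw [padicNorm.mul, padicNorm.mul]
    have := mul_le_one₀ c2 (padicNorm.nonneg _) e4
    have z := padicNorm.nonneg (p := p) y1
    nlinarith

/-- The kernel of reduction modulo `p`. -/
def KK : AddSubgroup E where
  carrier := {Q | ∀ x, HasX Q x → 1 < padicNorm p x}
  zero_mem' x h := absurd h (not_hasX_zero x)
  neg_mem' {Q} h x hx := h x (by simpa using hx.neg)
  add_mem' {Q1 Q2} h1 h2 x3 h3 := by
    by_contra hc
    push Not at hc
    rcases Q1 with _ | ⟨x1, y1, a1⟩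
    · change HasX (0 + Q2) x3 at h3
      rw [zero_add] at h3
      exact absurd (h2 x3 h3) (not_lt.2 hc)
    · have n1 := h1 x1 ⟨y1, a1, rfl⟩
      obtain ⟨y3, a3, e⟩ := h3
      obtain ⟨y1', a1', e'⟩ := HasX.neg (Q := Point.some x1 y1 a1) ⟨y1, a1, rfl⟩
      have e2 : Q2 = Point.some x3 y3 a3 + Point.some x1 y1' a1' := by
        rw [← e, ← e']; abel
      have := h2 _ (e2 ▸ add_hasX a3 a1' (by rintro rfl; linarith))
      exact absurd (int_add p ((ns_iff _ _).1 a1') ((ns_iff _ _).1 a3) n1 hc) (not_le.2 this)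

theorem mem_KK {Q : E} {x : ℚ} (h : HasX Q x) : Q ∈ KK p ↔ 1 < padicNorm p x :=
  ⟨fun h' => h' x h, fun h' _ hx => h.uniq hx ▸ h'⟩

end

end Pool.Agent.H.MP_d0a72d_lc
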