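import Pool.Agent.H.MP_d0a72d_lc.A

set_option autoImplicit false
open WeierstrassCurve WeierstrassCurve.Affine

namespace Pool.Agent.H.MP_d0a72d_lc

def RR : E := pt (25 / 4) (35 / 8) (by norm_num)
def PP : E := pt 12 36 (by norm_num)

theorem sq1 {w v e : ℤ} (hw : 0 < w) (hc : IsCoprime w v) (h : w * v = e ^ 2) : ∃ u, w = u ^ 2 := by
  obtain ⟨u, h | h⟩ := Int.sq_of_isCoprime hc h
  · exact ⟨u, h⟩
  · nlinarith [sq_nonneg u]

theorem sq4 {w x y z e : ℤ} (hw : 0 < w) (hx : 0 < x) (hy : 0 < y) (hz : 0 < z)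
    (wx : IsCoprime w x) (wy : IsCoprime w y) (wz : IsCoprime w z) (xy : IsCoprime x y)
    (xz : IsCoprime x z) (yz : IsCoprime y z) (h : w * x * y * z = e ^ 2) :
    ∃ a b c d, w = a ^ 2 ∧ x = b ^ 2 ∧ y = c ^ 2 ∧ z = d ^ 2 := by
  obtain ⟨a, ha⟩ := sq1 hw ((wx.mul_right wy).mul_right wz) (e := e) (by rw [← h]; ring)
  obtain ⟨b, hb⟩ := sq1 hx ((wx.symm.mul_right xy).mul_right xz) (e := e) (by rw [← h]; ring)
  obtain ⟨c, hc⟩ := sq1 hy ((wy.symm.mul_right xy.symm).mul_right yz) (e := e) (by rw [← h]; ring)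
  obtain ⟨d, hd⟩ := sq1 hz ((wz.symm.mul_right xz.symm).mul_right yz.symm) (e := e)
    (by rw [← h]; ring)
  exact ⟨a, b, c, d, ha, hb, hc, hd⟩

theorem sq43 {w x y z e : ℤ} (hw : 0 < w) (hx : 0 < x) (hy : 0 < y) (hz : 0 < z)
    (wx : IsCoprime w x) (wy : IsCoprime w y) (wz : IsCoprime w z) (xy : IsCoprime x y)
    (xz : IsCoprime x z) (yz : IsCoprime y z) (h : w * x * y * z = 3 * e ^ 2) :
    ∃ a b c d, (w = 3 * a ^ 2 ∧ x = b ^ 2 ∧ y = c ^ 2 ∧ z = d ^ 2) ∨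
      (w = a ^ 2 ∧ x = 3 * b ^ 2 ∧ y = c ^ 2 ∧ z = d ^ 2) ∨
      (w = a ^ 2 ∧ x = b ^ 2 ∧ y = 3 * c ^ 2 ∧ z = d ^ 2) ∨
      (w = a ^ 2 ∧ x = b ^ 2 ∧ y = c ^ 2 ∧ z = 3 * d ^ 2) := by
  have h3 : (3 : ℤ) ∣ w * x * y * z := ⟨_, h⟩
  have p3 : Prime (3 : ℤ) := Int.prime_three
  rcases p3.dvd_or_dvd h3 with h3 | ⟨k, rfl⟩
  · rcases p3.dvd_or_dvd h3 with h3 | ⟨k, rfl⟩
    · rcases p3.dvd_or_dvd h3 with ⟨k, rfl⟩ | ⟨k, rfl⟩
      · obtain ⟨a, b, c, d, h1, h2⟩ := sq4 (w := k) (e := e) (by omega) hx hy hz wx.of_mul_left_right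
          wy.of_mul_left_right wz.of_mul_left_right xy xz yz (by linarith)
        exact ⟨a, b, c, d, Or.inl ⟨by rw [h1], h2⟩⟩
      · obtain ⟨a, b, c, d, h1, h2, h4⟩ := sq4 (x := k) (e := e) hw (by omega) hy hz
          wx.of_mul_right_right wy wz xy.of_mul_left_right xz.of_mul_left_right yz (by linarith)
        exact ⟨a, b, c, d, Or.inr (Or.inl ⟨h1, by rw [h2], h4⟩)⟩
    · obtain ⟨a, b, c, d, h1, h2, h4, h5⟩ := sq4 (y := k) (e := e) hw hx (by omega) hz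
        wx wy.of_mul_right_right wz xy.of_mul_right_right xz yz.of_mul_left_right (by linarith)
      exact ⟨a, b, c, d, Or.inr (Or.inr (Or.inl ⟨h1, h2, by rw [h4], h5⟩))⟩
  · obtain ⟨a, b, c, d, h1, h2, h4, h5⟩ := sq4 (z := k) (e := e) hw hx hy (by omega)
      wx wy wz.of_mul_right_right xy xz.of_mul_right_right yz.of_mul_right_right (by linarith)
    exact ⟨a, b, c, d, Or.inr (Or.inr (Or.inr ⟨h1, h2, h4, by rw [h5]⟩))⟩

theorem sq8 (u : ℤ) : u ^ 2 % 8 = 0 ∨ u ^ 2 % 8 = 1 ∨ u ^ 2 % 8 = 4 := by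
  have : u % 8 = 0 ∨ u % 8 = 1 ∨ u % 8 = 2 ∨ u % 8 = 3 ∨ u % 8 = 4 ∨ u % 8 = 5 ∨ u % 8 = 6 ∨
      u % 8 = 7 := by omega
  rcases this with h | h | h | h | h | h | h | h <;> simp [pow_two, Int.mul_emod, h]

theorem classify {p q d : ℤ} (hq : 0 < q) (hpq : q < p) (hc : IsCoprime p q)
    (hpar : (p + q) % 2 = 1) (h : 2 * p * q * (p + q) * (p - q) = 3 * d ^ 2) :
    ∃ u w s t : ℤ, (p = u ^ 2 ∧ q = 6 * w ^ 2 ∧ p + q = s ^ 2 ∧ p - q = t ^ 2) ∨
      (p = 2 * u ^ 2 ∧ q = w ^ 2 ∧ p + q = 3 * s ^ 2 ∧ p - q = t ^ 2) := by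
  have c1 : IsCoprime p (p + q) := by
    have := hc.add_mul_left_right 1; rwa [mul_one, add_comm] at this
  have c2 : IsCoprime p (p - q) := by
    have := hc.neg_right.add_mul_left_right 1; rwa [mul_one, neg_add_eq_sub] at this
  have c3 : IsCoprime q (p + q) := by
    have := hc.symm.add_mul_left_right 1; rwa [mul_one] at this
  have c4 : IsCoprime q (p - q) := by
    have := hc.symm.add_mul_left_right (-1); rwa [mul_neg_one, ← sub_eq_add_neg] at this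
  have c5 : IsCoprime (p + q) (p - q) := by
    have o : IsCoprime (p + q) 2 := ⟨1, -((p + q) / 2), by omega⟩
    have := (o.mul_right c3.symm).neg_right.add_mul_left_right 1
    rwa [show -(2 * q) + (p + q) * 1 = p - q by ring] at this
  have hd : d % 2 = 0 := by
    by_contra hd
    have h1 := sq8 d
    have h2 : d ^ 2 % 2 = 1 := by
      have : d % 2 = 1 := by omega
      simp [pow_two, Int.mul_emod, this]
    have : (2 * (p * q * (p + q) * (p - q))) = 3 * d ^ 2 := by rw [← h]; ring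
    omega
  obtain ⟨e, rfl⟩ : ∃ e, d = 2 * e := ⟨d / 2, by omega⟩
  by_cases hp : p % 2 = 0
  · obtain ⟨k, rfl⟩ : ∃ k, p = 2 * k := ⟨p / 2, by omega⟩
    obtain ⟨a, b, c, d, h1⟩ := sq43 (w := k) (x := q) (y := 2 * k + q) (z := 2 * k - q) (e := e)
      (by omega) hq (by omega) (by omega) hc.of_mul_left_right c1.of_mul_left_right
      c2.of_mul_left_right c3 c4 c5 (by nlinarith)
    have := sq8 a
    have := sq8 b
    have := sq8 c
    have := sq8 d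
    rcases h1 with h1 | h1 | h1 | h1
    · omega
    · omega
    · exact ⟨a, b, c, d, Or.inr ⟨by rw [h1.1], h1.2⟩⟩
    · omega
  · obtain ⟨k, rfl⟩ : ∃ k, q = 2 * k := ⟨q / 2, by omega⟩
    obtain ⟨a, b, c, d, h1⟩ := sq43 (w := k) (x := p) (y := p + 2 * k) (z := p - 2 * k) (e := e)
      (by omega) (by omega) (by omega) (by omega) hc.symm.of_mul_left_right c3.of_mul_left_right
      c4.of_mul_left_right c1 c2 c5 (by nlinarith)
    have := sq8 a
    have := sq8 b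
    have := sq8 c
    have := sq8 d
    rcases h1 with h1 | h1 | h1 | h1
    · exact ⟨b, a, c, d, Or.inl ⟨h1.2.1, by rw [h1.1]; ring, h1.2.2⟩⟩
    · omega
    · omega
    · omega

theorem sol_odd {a b d : ℤ} (hb : b ^ 2 = a ^ 2 - 6 * d ^ 2) (hc : IsCoprime a d) :
    a % 2 = 1 ∧ ¬ (3 : ℤ) ∣ a := by
  constructor
  · by_contra h
    obtain ⟨k, rfl⟩ : ∃ k, a = 2 * k := ⟨a / 2, by omega⟩
    have hd : d % 2 = 1 := by
      by_contra hd
      obtain ⟨e, rfl⟩ : ∃ e, d = 2 * e := ⟨d / 2, by omega⟩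
      obtain ⟨u, v, h⟩ := hc
      have : 2 * (u * k + v * e) = 1 := by linarith
      omega
    have h2 : d ^ 2 % 2 = 1 := by simp [pow_two, Int.mul_emod, hd]
    have := sq8 b
    have := sq8 d
    have : b ^ 2 = 4 * k ^ 2 - 6 * d ^ 2 := by rw [hb]; ring
    omega
  · rintro ⟨k, rfl⟩
    have p3 : Prime (3 : ℤ) := Int.prime_three
    obtain ⟨l, rfl⟩ := p3.dvd_of_dvd_pow (n := 2) (a := b) ⟨3 * k ^ 2 - 2 * d ^ 2, by rw [hb]; ring⟩
    have : (3 : ℤ) ∣ 2 * d ^ 2 := ⟨k ^ 2 - l ^ 2, by linarith⟩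
    obtain ⟨e, rfl⟩ := p3.dvd_of_dvd_pow ((p3.dvd_or_dvd this).resolve_left (by norm_num))
    obtain ⟨u, v, h⟩ := hc
    have : 3 * (u * k + v * e) = 1 := by linarith
    omega

theorem triangle {a b c d : ℤ} (hb : b ^ 2 = a ^ 2 - 6 * d ^ 2) (hc : c ^ 2 = a ^ 2 + 6 * d ^ 2)
    (hco : IsCoprime a d) (hd : d ≠ 0) :
    ∃ p q : ℤ, 0 < q ∧ q < p ∧ IsCoprime p q ∧ (p + q) % 2 = 1 ∧
      2 * p * q * (p + q) * (p - q) = 3 * d ^ 2 ∧ |a| = p ^ 2 + q ^ 2 := by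
  obtain ⟨o, n3⟩ := sol_odd hb hco
  have a2 : a ^ 2 % 2 = 1 := by simp [pow_two, Int.mul_emod, o]
  have ob : b % 2 = 1 := by
    by_contra h
    have : b % 2 = 0 := by omega
    have : b ^ 2 % 2 = 0 := by simp [pow_two, Int.mul_emod, this]
    omega
  have oc : c % 2 = 1 := by
    by_contra h
    have : c % 2 = 0 := by omega
    have : c ^ 2 % 2 = 0 := by simp [pow_two, Int.mul_emod, this]
    omega
  obtain ⟨s, hs⟩ : ∃ s, c + b = 2 * s := ⟨(c + b) / 2, by omega⟩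
  obtain ⟨t, ht⟩ : ∃ t, c - b = 2 * t := ⟨(c - b) / 2, by omega⟩
  have e1 : s * s + t * t = a * a := by
    have : c = s + t := by omega
    have : b = s - t := by omega
    subst_vars; nlinarith
  have e2 : s * t = 3 * d ^ 2 := by
    have : c = s + t := by omega
    have : b = s - t := by omega
    subst_vars; nlinarith
  have g : Int.gcd s t = 1 := by
    rw [← Int.isCoprime_iff_gcd_eq_one]
    refine isCoprime_of_prime_dvd ?_ ?_
    · rintro ⟨rfl, -⟩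
      have : 0 < d ^ 2 := by positivity
      linarith
    · intro z hz h1 h2
      have h3 : z ∣ a := hz.dvd_of_dvd_pow (n := 2) (by
        rw [sq, ← e1]; exact dvd_add (h1.mul_left _) (h2.mul_left _))
      have h4 : z ∣ 3 * d ^ 2 := e2 ▸ h1.mul_right _
      rcases hz.dvd_or_dvd h4 with h5 | h5
      · exact n3 ((hz.associated_of_dvd Int.prime_three h5).symm.dvd.trans h3)
      · exact hz.not_unit (hco.isUnit_of_dvd' h3 (hz.dvd_of_dvd_pow h5))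
  obtain ⟨m, n, h1, h2, h3, h4⟩ := (PythagoreanTriple.coprime_classification (x := s) (y := t)
    (z := a)).1 ⟨e1, g⟩
  have h5 : 2 * m * n * (m ^ 2 - n ^ 2) = 3 * d ^ 2 := by
    rcases h1 with ⟨rfl, rfl⟩ | ⟨rfl, rfl⟩ <;> linarith
  have h6 : |a| = m ^ 2 + n ^ 2 := by
    have : 0 ≤ m ^ 2 + n ^ 2 := by positivity
    rcases h2 with rfl | rfl
    · exact abs_of_nonneg this
    · rw [abs_neg]; exact abs_of_nonneg this
  have h7 : IsCoprime m n := Int.isCoprime_iff_gcd_eq_one.2 h3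
  have dp : 0 < d ^ 2 := by positivity
  have hm : m ≠ 0 := by rintro rfl; simp at h5; exact hd h5
  have hn : n ≠ 0 := by rintro rfl; simp at h5; exact hd h5
  have key : ∀ m n : ℤ, 0 < m → 0 < n → IsCoprime m n → (m + n) % 2 = 1 →
      2 * m * n * (m ^ 2 - n ^ 2) = 3 * d ^ 2 → |a| = m ^ 2 + n ^ 2 →
      ∃ p q : ℤ, 0 < q ∧ q < p ∧ IsCoprime p q ∧ (p + q) % 2 = 1 ∧
        2 * p * q * (p + q) * (p - q) = 3 * d ^ 2 ∧ |a| = p ^ 2 + q ^ 2 := by
    intro m n hm hn h1 h2 h3 h4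
    refine ⟨m, n, hn, ?_, h1, h2, by rw [← h3]; ring, h4⟩
    by_contra h
    push Not at h
    have : 0 < m * n := mul_pos hm hn
    have : m ^ 2 - n ^ 2 ≤ 0 := by nlinarith
    nlinarith
  rcases lt_or_gt_of_ne hm with hm | hm <;> rcases lt_or_gt_of_ne hn with hn | hn
  · exact key (-m) (-n) (by omega) (by omega) h7.neg_left.neg_right (by omega)
      (by rw [← h5]; ring) (by rw [h6]; ring)
  · exact key n (-m) (by omega) (by omega) h7.symm.neg_right (by omega)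
      (by rw [← h5]; ring) (by rw [h6]; ring)
  · exact key (-n) m (by omega) (by omega) h7.symm.neg_left (by omega)
      (by rw [← h5]; ring) (by rw [h6]; ring)
  · exact key m n (by omega) (by omega) h7 (by omega) h5 h6

theorem int_of_sq {B : ℚ} {z : ℤ} (h : B ^ 2 = z) : ∃ b : ℤ, B = b := by
  have h1 : (B ^ 2).den = 1 := by rw [h]; simp
  rw [Rat.den_pow] at h1
  exact ⟨B.num, (Rat.coe_int_num_of_den_eq_one (by simpa using h1)).symm⟩

theorem num_le {N D : ℤ} (hN : N ≠ 0) (hD : D ≠ 0) : ((N : ℚ) / D).num.natAbs ≤ N.natAbs := by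
  have := Rat.num_dvd N hD
  rw [Rat.divInt_eq_div] at this
  exact Nat.le_of_dvd (Int.natAbs_pos.2 hN) (Int.natAbs_dvd_natAbs.2 this)

theorem aux_id {u w s t : ℚ} (hw : w ≠ 0) (hD : u ^ 2 - w ^ 2 ≠ 0)
    (e1 : 2 * u ^ 2 + w ^ 2 = 3 * s ^ 2) (e2 : 2 * u ^ 2 - w ^ 2 = t ^ 2) :
    (3 * (u * w - t * s) / (u ^ 2 - w ^ 2)) ^ 2 =
      ((12 * u ^ 2 / w ^ 2 * 12 - 36) * (12 * u ^ 2 / w ^ 2 + 12) -
        2 * (36 * u * t * s / w ^ 3) * 36) / (12 * u ^ 2 / w ^ 2 - 12) ^ 2 := by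
  have : (12 * u ^ 2 / w ^ 2 - 12 : ℚ) = 12 * (u ^ 2 - w ^ 2) / w ^ 2 := by field_simp
  rw [this]
  have e : (3 * (u * w - t * s)) ^ 2 =
      3 * (4 * u ^ 2 - w ^ 2) * (u ^ 2 + w ^ 2) - 18 * u * t * s * w := by
    linear_combination (-3 * t ^ 2) * e1 - (3 * (2 * u ^ 2 + w ^ 2)) * e2
  rw [div_pow, e]
  field_simp
  ring

theorem aux_lt {u w s t : ℤ} (hw : 0 < w ^ 2) (huw : u ^ 2 ≠ w ^ 2)
    (e1 : 2 * u ^ 2 + w ^ 2 = 3 * s ^ 2) (e2 : 2 * u ^ 2 - w ^ 2 = t ^ 2) :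
    |3 * (u * w - t * s)| < (2 * u ^ 2) ^ 2 + (w ^ 2) ^ 2 := by
  have ht := sq_nonneg t
  have hu4 : 4 ≤ u ^ 2 := by
    have := sq8 u
    have := sq_nonneg u
    omega
  have a1 := sq_nonneg (u - w)
  have a2 := sq_nonneg (u + w)
  have a3 := sq_nonneg (t - s)
  have a4 := sq_nonneg (t + s)
  have a5 : 16 * u ^ 2 ≤ (2 * u ^ 2) ^ 2 := by nlinarith
  have a6 := sq_nonneg (w ^ 2)
  rw [abs_lt]
  constructor <;> nlinarith

theorem descent (n : ℕ) : ∀ A B C : ℚ, A.num.natAbs = n → B ^ 2 = A ^ 2 - 6 → C ^ 2 = A ^ 2 + 6 →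
    ∀ Q : E, HasX Q (A ^ 2) → Q ∈ AddSubgroup.zmultiples RR := by
  induction n using Nat.strong_induction_on with
  | _ n ih =>
  intro A B C hn hB hC Q hQ
  have hA : A = (A.num : ℚ) / (A.den : ℤ) := by simp [Rat.num_div_den]
  set a := A.num with ha
  set d : ℤ := (A.den : ℤ) with hd
  have hd0 : d ≠ 0 := by simp [hd]
  have hdq : (d : ℚ) ≠ 0 := by exact_mod_cast hd0
  obtain ⟨b, hb⟩ := int_of_sq (B := B * d) (z := a ^ 2 - 6 * d ^ 2) (by
    rw [mul_pow, hB, hA]; push_cast; field_simp)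
  obtain ⟨c, hc⟩ := int_of_sq (B := C * d) (z := a ^ 2 + 6 * d ^ 2) (by
    rw [mul_pow, hC, hA]; push_cast; field_simp)
  have hb' : b ^ 2 = a ^ 2 - 6 * d ^ 2 := by
    have : (b : ℚ) ^ 2 = a ^ 2 - 6 * d ^ 2 := by rw [← hb, mul_pow, hB, hA]; field_simp
    exact_mod_cast this
  have hc' : c ^ 2 = a ^ 2 + 6 * d ^ 2 := by
    have : (c : ℚ) ^ 2 = a ^ 2 + 6 * d ^ 2 := by rw [← hc, mul_pow, hC, hA]; field_simp
    exact_mod_cast this
  obtain ⟨p, q, h1, h2, h3, h4, h5, h6⟩ := triangle hb' hc'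
    (Int.isCoprime_iff_gcd_eq_one.2 A.reduced) hd0
  have hq : (q : ℚ) ≠ 0 := by exact_mod_cast h1.ne'
  have h5' : (2 * p * q * (p + q) * (p - q) : ℚ) = 3 * d ^ 2 := by exact_mod_cast h5
  have h6' : (a : ℚ) ^ 2 = (p ^ 2 + q ^ 2) ^ 2 := by
    have : a ^ 2 = (p ^ 2 + q ^ 2) ^ 2 := by rw [← h6, sq_abs]
    exact_mod_cast this
  have hy : (6 * p / q : ℚ) ^ 3 - 36 * (6 * p / q) = (18 * d / q ^ 2) ^ 2 := by
    field_simp; linear_combination 108 * h5'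
  have dbl : ∀ P' : E, HasX P' (6 * p / q) → HasX (P' + P') (A ^ 2) := fun P' hP' => by
    have := hP'.dbl (by rw [hy]; positivity)
    rw [hy] at this
    convert this using 1
    rw [hA, div_pow, h6']; field_simp; ring
  have hna : (n : ℤ) = p ^ 2 + q ^ 2 := by rw [← hn, Int.natCast_natAbs, h6]
  obtain ⟨u, w, s, t, ⟨rfl, rfl, e1, e2⟩ | ⟨rfl, rfl, e1, e2⟩⟩ := classify h1 h2 h3 h4 h5
  · have hw : w ≠ 0 := by rintro rfl; simp at h1
    have hu : u ≠ 0 := by rintro rfl; simp at h2; nlinarith [sq_nonneg w]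
    have hwq : (w : ℚ) ≠ 0 := by exact_mod_cast hw
    have e1' : (u ^ 2 + 6 * w ^ 2 : ℚ) = s ^ 2 := by exact_mod_cast e1
    have e2' : (u ^ 2 - 6 * w ^ 2 : ℚ) = t ^ 2 := by exact_mod_cast e2
    have hP := pt_hasX _ _ hy.symm
    have := ih _ (lt_of_le_of_lt (num_le hu hw) (by
      zify; rw [hna]
      have : |u| ≤ u ^ 2 := by rw [← sq_abs]; nlinarith [abs_pos.2 hu]
      nlinarith [sq_pos_of_ne_zero hu, sq_pos_of_ne_zero hw])) (u / w) (t / w) (s / w) rfl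
      (by field_simp; linarith) (by field_simp; linarith) _ (by
        convert hP using 1; push_cast; field_simp)
    exact hQ.mem (dbl _ hP) (add_mem this this)
  · have hw : w ≠ 0 := by rintro rfl; simp at h1
    have hwq : (w : ℚ) ≠ 0 := by exact_mod_cast hw
    have e1' : (2 * u ^ 2 + w ^ 2 : ℚ) = 3 * s ^ 2 := by exact_mod_cast e1
    have e2' : (2 * u ^ 2 - w ^ 2 : ℚ) = t ^ 2 := by exact_mod_cast e2
    have hPP : PP + PP ∈ AddSubgroup.zmultiples RR := by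
      have := (pt_hasX 12 36 (by norm_num)).dbl (by norm_num)
      norm_num at this
      exact this.mem (pt_hasX (25 / 4) (35 / 8) (by norm_num)) (AddSubgroup.mem_zmultiples _)
    have hx' : (6 * ((2 * u ^ 2 : ℤ) : ℚ) / ((w ^ 2 : ℤ) : ℚ)) = 12 * u ^ 2 / w ^ 2 := by
      push_cast; ring
    by_cases huw : u ^ 2 = w ^ 2
    · have huw' : (u : ℚ) ^ 2 = w ^ 2 := by exact_mod_cast huw
      refine hQ.mem (dbl PP ?_) hPP
      rw [hx', huw', mul_div_assoc, div_self (by positivity), mul_one]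
      exact pt_hasX 12 36 _
    · have hD : u ^ 2 - w ^ 2 ≠ 0 := sub_ne_zero.2 huw
      have hDq : (u : ℚ) ^ 2 - w ^ 2 ≠ 0 := by exact_mod_cast hD
      have hy' : (36 * u * t * s / w ^ 3 : ℚ) ^ 2 =
          (12 * u ^ 2 / w ^ 2) ^ 3 - 36 * (12 * u ^ 2 / w ^ 2) := by
        field_simp
        linear_combination (-432 * u ^ 2 * t ^ 2) * e1' - (432 * u ^ 2 * (2 * u ^ 2 + w ^ 2)) * e2'
      have hne : (12 * u ^ 2 / w ^ 2 : ℚ) ≠ 12 := by
        intro h; apply hDq; field_simp at h; linarith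
      have hs := add_hasX ((ns_iff _ _).2 hy') ((ns_iff 12 36).2 (by norm_num)) hne
      have hB' : (((3 * (w * t - u * s) : ℤ) : ℚ) / ((u ^ 2 - w ^ 2 : ℤ) : ℚ)) ^ 2 =
          (((3 * (u * w - t * s) : ℤ) : ℚ) / ((u ^ 2 - w ^ 2 : ℤ) : ℚ)) ^ 2 - 6 := by
        push_cast; field_simp
        linear_combination (3 * (t ^ 2 - u ^ 2)) * e1' + (3 * (2 * u ^ 2 + w ^ 2) - 9 * w ^ 2) * e2'
      have hC' : (((3 * (w * s - u * t) : ℤ) : ℚ) / ((u ^ 2 - w ^ 2 : ℤ) : ℚ)) ^ 2 =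
          (((3 * (u * w - t * s) : ℤ) : ℚ) / ((u ^ 2 - w ^ 2 : ℤ) : ℚ)) ^ 2 + 6 := by
        push_cast; field_simp
        linear_combination (3 * (t ^ 2 - w ^ 2)) * e1' + (3 * (2 * u ^ 2 + w ^ 2) - 9 * u ^ 2) * e2'
      have hN : 3 * (u * w - t * s) ≠ 0 := by
        intro h
        rw [h] at hB'
        have := sq_nonneg (((3 * (w * t - u * s) : ℤ) : ℚ) / ((u ^ 2 - w ^ 2 : ℤ) : ℚ))
        rw [hB'] at this
        norm_num at this
      have := ih _ (lt_of_le_of_lt (num_le hN hD) (by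
        zify; rw [hna]; exact aux_lt h1 huw e1 e2)) _ _ _ rfl hB' hC' _ (by
          push_cast
          rw [aux_id hwq hDq e1' e2']
          exact hs)
      have hP' : HasX (pt _ _ hy') (6 * ((2 * u ^ 2 : ℤ) : ℚ) / ((w ^ 2 : ℤ) : ℚ)) := by
        rw [hx']; exact pt_hasX _ _ _
      refine hQ.mem (dbl _ hP') ?_
      have e : pt _ _ hy' + pt _ _ hy' = (pt _ _ hy' + PP) + (pt _ _ hy' + PP) - (PP + PP) := by
        abel
      rw [e]
      exact sub_mem (add_mem this this) hPP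

end Pool.Agent.H.MP_d0a72d_lc
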