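import Pool.Agent.H.MP_d0a72d_lc.B

set_option autoImplicit false

namespace Pool.Agent.H.MP_d0a72d_lc

def sq : ℕ → ℤ × ℤ × ℤ × ℤ
  | 0 => (5, 1, 7, 2)
  | n + 1 =>
    let s := sq n
    (s.1 ^ 4 + 36 * s.2.2.2 ^ 4, s.1 ^ 4 - 12 * s.1 ^ 2 * s.2.2.2 ^ 2 - 36 * s.2.2.2 ^ 4,
      s.1 ^ 4 + 12 * s.1 ^ 2 * s.2.2.2 ^ 2 - 36 * s.2.2.2 ^ 4, 2 * s.1 * s.2.1 * s.2.2.1 * s.2.2.2)

def sa (n : ℕ) : ℤ := (sq n).1
def sb (n : ℕ) : ℤ := (sq n).2.1
def sc (n : ℕ) : ℤ := (sq n).2.2.1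
def sd (n : ℕ) : ℤ := (sq n).2.2.2

theorem sa_succ (n : ℕ) : sa (n + 1) = sa n ^ 4 + 36 * sd n ^ 4 := rfl
theorem sb_succ (n : ℕ) : sb (n + 1) = sa n ^ 4 - 12 * sa n ^ 2 * sd n ^ 2 - 36 * sd n ^ 4 := rfl
theorem sc_succ (n : ℕ) : sc (n + 1) = sa n ^ 4 + 12 * sa n ^ 2 * sd n ^ 2 - 36 * sd n ^ 4 := rfl
theorem sd_succ (n : ℕ) : sd (n + 1) = 2 * sa n * sb n * sc n * sd n := rfl

structure Sol (a b c d : ℤ) : Prop where
  hb : b ^ 2 = a ^ 2 - 6 * d ^ 2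
  hc : c ^ 2 = a ^ 2 + 6 * d ^ 2
  co : IsCoprime a d
  hd : d ≠ 0

theorem Sol.co6 {a b c d : ℤ} (h : Sol a b c d) : IsCoprime a 6 := by
  obtain ⟨h1, h2⟩ := sol_odd h.hb h.co
  have c2 : IsCoprime a 2 := ⟨1, -(a / 2), by omega⟩
  have c3 : IsCoprime a 3 := ((Int.prime_three.irreducible.coprime_iff_not_dvd).2 h2).symm
  exact c2.mul_right c3

theorem Sol.key {a b c d : ℤ} (h : Sol a b c d) : IsCoprime (a ^ 2) (6 * d ^ 2) :=
  (h.co6.mul_right h.co.pow_right).pow_left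

theorem Sol.cob {a b c d : ℤ} (h : Sol a b c d) : IsCoprime b (6 * d ^ 2) := by
  have := h.key.add_mul_left_left (-1)
  rw [show a ^ 2 + 6 * d ^ 2 * -1 = b * b by rw [← pow_two, h.hb]; ring] at this
  exact this.of_mul_left_left

theorem Sol.coc {a b c d : ℤ} (h : Sol a b c d) : IsCoprime c (6 * d ^ 2) := by
  have := h.key.add_mul_left_left 1
  rw [show a ^ 2 + 6 * d ^ 2 * 1 = c * c by rw [← pow_two, h.hc]; ring] at this
  exact this.of_mul_left_left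

theorem Sol.ane {a b c d : ℤ} (h : Sol a b c d) : 6 ≤ a ^ 2 := by
  have := sq_nonneg b
  have := sq_pos_of_ne_zero h.hd
  have := h.hb
  omega

theorem Sol.bne {a b c d : ℤ} (h : Sol a b c d) : b ≠ 0 := by
  rintro rfl
  have := Int.isUnit_iff.1 (isCoprime_zero_left.1 h.cob)
  omega

theorem Sol.cne {a b c d : ℤ} (h : Sol a b c d) : c ≠ 0 := by
  rintro rfl
  have := Int.isUnit_iff.1 (isCoprime_zero_left.1 h.coc)
  omega

theorem Sol.nxt {a b c d : ℤ} (h : Sol a b c d) : IsCoprime (a ^ 4 + 36 * d ^ 4) (6 * d ^ 2) := by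
  have := (h.key.pow_left (m := 2)).add_mul_left_left (6 * d ^ 2)
  rwa [show (a ^ 2) ^ 2 + 6 * d ^ 2 * (6 * d ^ 2) = a ^ 4 + 36 * d ^ 4 by ring] at this

theorem sol (n : ℕ) : Sol (sa n) (sb n) (sc n) (sd n) := by
  induction n with
  | zero => exact ⟨by decide, by decide, ⟨1, -2, by decide⟩, by decide⟩
  | succ n ih =>
    rw [sa_succ, sb_succ, sc_succ, sd_succ]
    generalize sa n = a, sb n = b, sc n = c, sd n = d at ih
    have ha : a ≠ 0 := by rintro rfl; have := ih.ane; omega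
    refine ⟨?_, ?_, ?_, by simp [ha, ih.bne, ih.cne, ih.hd]⟩
    · linear_combination (24 * a ^ 2 * d ^ 2 * c ^ 2) * ih.hb +
        (24 * a ^ 2 * d ^ 2 * (a ^ 2 - 6 * d ^ 2)) * ih.hc
    · linear_combination (-24 * a ^ 2 * d ^ 2 * c ^ 2) * ih.hb -
        (24 * a ^ 2 * d ^ 2 * (a ^ 2 - 6 * d ^ 2)) * ih.hc
    · have k := ih.nxt
      have k2 : IsCoprime (a ^ 4 + 36 * d ^ 4) 2 :=
        IsCoprime.of_mul_right_left (z := 3 * d ^ 2) (by rwa [show 2 * (3 * d ^ 2) = 6 * d ^ 2 by ring])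
      have kd : IsCoprime (a ^ 4 + 36 * d ^ 4) d :=
        IsCoprime.of_mul_right_left (z := 6 * d) (by rwa [show d * (6 * d) = 6 * d ^ 2 by ring])
      have ka : IsCoprime (a ^ 4 + 36 * d ^ 4) a := by
        have := ((ih.co6.mul_right (ih.co.pow_right (n := 2))).pow_right (n := 2)).symm.add_mul_left_left (a ^ 3)
        rwa [show (6 * d ^ 2) ^ 2 + a * a ^ 3 = a ^ 4 + 36 * d ^ 4 by ring] at this
      have two : ∀ b : ℤ, IsCoprime b (6 * d ^ 2) → IsCoprime (2 * (6 * d ^ 2) ^ 2) b := fun b hb =>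
        ((IsCoprime.of_mul_right_left (y := 2) (z := 3 * d ^ 2)
          (by rwa [show 2 * (3 * d ^ 2) = 6 * d ^ 2 by ring])).mul_right hb.pow_right).symm
      have kb : IsCoprime (a ^ 4 + 36 * d ^ 4) b := by
        have := (two b ih.cob).add_mul_left_left (b * (a ^ 2 + 6 * d ^ 2))
        rwa [show 2 * (6 * d ^ 2) ^ 2 + b * (b * (a ^ 2 + 6 * d ^ 2)) = a ^ 4 + 36 * d ^ 4 by
          linear_combination (a ^ 2 + 6 * d ^ 2) * ih.hb] at this
      have kc : IsCoprime (a ^ 4 + 36 * d ^ 4) c := by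
        have := (two c ih.coc).add_mul_left_left (c * (a ^ 2 - 6 * d ^ 2))
        rwa [show 2 * (6 * d ^ 2) ^ 2 + c * (c * (a ^ 2 - 6 * d ^ 2)) = a ^ 4 + 36 * d ^ 4 by
          linear_combination (a ^ 2 - 6 * d ^ 2) * ih.hc] at this
      exact (((k2.mul_right ka).mul_right kb).mul_right kc).mul_right kd

theorem sd_dvd {i j : ℕ} (h : i ≤ j) : sd i ∣ sd j := by
  induction h with
  | refl => exact dvd_rfl
  | step _ ih => rw [sd_succ]; exact ih.mul_left _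

theorem sa_dvd (i : ℕ) : sa i ∣ sd (i + 1) := ⟨2 * sb i * sc i * sd i, by rw [sd_succ]; ring⟩
theorem sb_dvd (i : ℕ) : sb i ∣ sd (i + 1) := ⟨2 * sa i * sc i * sd i, by rw [sd_succ]; ring⟩

theorem hasX_pow (n : ℕ) : HasX ((2 ^ n : ℤ) • RR) ((sa n : ℚ) ^ 2 / (sd n : ℚ) ^ 2) := by
  induction n with
  | zero =>
    rw [pow_zero, one_smul]
    have : ((sa 0 : ℚ) ^ 2 / (sd 0 : ℚ) ^ 2) = 25 / 4 := by
      simp [sa, sd, sq]; norm_num
    rw [this]; exact pt_hasX _ _ _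
  | succ n ih =>
    have s := sol n
    rw [pow_succ, mul_comm, mul_smul, two_zsmul, sa_succ, sd_succ]
    generalize sa n = a, sb n = b, sc n = c, sd n = d at ih s
    have ha : (a : ℚ) ≠ 0 := by
      have := s.ane
      have : a ≠ 0 := by rintro rfl; omega
      exact_mod_cast this
    have hb : (b : ℚ) ≠ 0 := by exact_mod_cast s.bne
    have hc : (c : ℚ) ≠ 0 := by exact_mod_cast s.cne
    have hd : (d : ℚ) ≠ 0 := by exact_mod_cast s.hd
    have e1 : (b : ℚ) ^ 2 = a ^ 2 - 6 * d ^ 2 := by exact_mod_cast s.hb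
    have e2 : (c : ℚ) ^ 2 = a ^ 2 + 6 * d ^ 2 := by exact_mod_cast s.hc
    have e : ((a : ℚ) ^ 2 / d ^ 2) ^ 3 - 36 * (a ^ 2 / d ^ 2) = (a * b * c / d ^ 3) ^ 2 := by
      field_simp
      linear_combination (-c ^ 2) * e1 - (a ^ 2 - 6 * d ^ 2) * e2
    have := ih.dbl (by rw [e]; positivity)
    rw [e] at this
    convert this using 1
    push_cast; field_simp; ring

theorem aux14 {x : ℚ} (h : 14 ≤ x) : (x ^ 2 + 36) ^ 2 ≤ (x - 1) * (4 * (x ^ 3 - 36 * x)) := by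
  obtain ⟨y, rfl⟩ : ∃ y, x = y + 14 := ⟨x - 14, by ring⟩
  have hy : 0 ≤ y := by linarith
  nlinarith [pow_nonneg hy 2, pow_nonneg hy 3, pow_nonneg hy 4]

theorem neg_often (N : ℕ) : ∃ j, N ≤ j ∧ sb (j + 1) < 0 := by
  by_contra h
  push Not at h
  have key : ∀ k : ℕ, (sa (N + k) : ℚ) ^ 2 / (sd (N + k) : ℚ) ^ 2 + k ≤
      (sa N : ℚ) ^ 2 / (sd N : ℚ) ^ 2 := by
    intro k
    induction k with
    | zero => simp
    | succ k ih =>
      have s := sol (N + k)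
      have h1 := h (N + k) (by omega)
      have hx := (hasX_pow (N + k + 1))
      have hx0 := hasX_pow (N + k)
      rw [sb_succ] at h1
      have hd0 : (sd (N + k) : ℚ) ≠ 0 := by exact_mod_cast s.hd
      have hd : (0 : ℚ) < (sd (N + k) : ℚ) ^ 2 := by positivity
      set x : ℚ := (sa (N + k) : ℚ) ^ 2 / (sd (N + k) : ℚ) ^ 2 with hxdef
      have hx2 : 0 ≤ x ^ 2 - 12 * x - 36 := by
        have h2 : (0 : ℚ) ≤ (sa (N + k) : ℚ) ^ 4 - 12 * (sa (N + k) : ℚ) ^ 2 * (sd (N + k) : ℚ) ^ 2 -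
          36 * (sd (N + k) : ℚ) ^ 4 := by exact_mod_cast h1
        have : x ^ 2 - 12 * x - 36 = ((sa (N + k) : ℚ) ^ 4 - 12 * (sa (N + k) : ℚ) ^ 2 *
            (sd (N + k) : ℚ) ^ 2 - 36 * (sd (N + k) : ℚ) ^ 4) / ((sd (N + k) : ℚ) ^ 2) ^ 2 := by
          rw [hxdef]; field_simp
        rw [this]; positivity
      have hx3 : 0 ≤ x := by positivity
      have hx4 : 14 ≤ x := by nlinarith
      have hpos : 0 < x ^ 3 - 36 * x := by nlinarith
      have e := hx.uniq (by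
        rw [pow_succ, mul_comm, mul_smul, two_zsmul]; exact hx0.dbl hpos.ne')
      rw [← add_assoc, e]
      have : (x ^ 2 + 36) ^ 2 / (4 * (x ^ 3 - 36 * x)) ≤ x - 1 := by
        rw [div_le_iff₀ (by positivity)]
        exact aux14 hx4
      push_cast; linarith
  obtain ⟨k, hk⟩ := exists_nat_gt ((sa N : ℚ) ^ 2 / (sd N : ℚ) ^ 2)
  have := key k
  have : (0 : ℚ) ≤ (sa (N + k) : ℚ) ^ 2 / (sd (N + k) : ℚ) ^ 2 := by positivity
  linarith

theorem exists_b (T : Finset ℕ) : ∃ j p : ℕ, p.Prime ∧ p % 4 = 3 ∧ (p : ℤ) ∣ sb j ∧ p ∉ T := by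
  have h1 : ∀ t : ℕ, ∃ N, t.Prime → ∀ j, N ≤ j → ¬ (t : ℤ) ∣ sb j := by
    intro t
    by_cases h : ∃ j, (t : ℤ) ∣ sb j
    · obtain ⟨j0, h⟩ := h
      refine ⟨j0 + 1, fun ht j hj h2 => ?_⟩
      have h3 : (t : ℤ) ∣ 6 * sd j ^ 2 :=
        ((h.trans ((sb_dvd j0).trans (sd_dvd hj))).trans (dvd_pow_self _ two_ne_zero)).mul_left _
      exact (Nat.prime_iff_prime_int.1 ht).not_unit ((sol j).cob.isUnit_of_dvd' h2 h3)
    · exact ⟨0, fun _ j _ h2 => h ⟨j, h2⟩⟩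
  choose N hN using h1
  obtain ⟨j, hj, hneg⟩ := neg_often (T.sup N)
  have h3 : (sb (j + 1)).natAbs % 4 = 3 := by
    have o := (sol_odd (sol j).hb (sol j).co).1
    have := sq8 (sa j ^ 2)
    have h4 : (sa j ^ 2) ^ 2 % 2 = 1 := by simp [pow_two, Int.mul_emod, o]
    have e : sb (j + 1) = (sa j ^ 2) ^ 2 - 4 * (3 * sa j ^ 2 * sd j ^ 2 + 9 * sd j ^ 4) := by
      rw [sb_succ]; ring
    omega
  obtain ⟨p, hp, h4, h5⟩ : ∃ p : ℕ, p.Prime ∧ p ∣ (sb (j + 1)).natAbs ∧ p % 4 = 3 := by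
    by_contra hc
    push Not at hc
    have key : ∀ n : ℕ, n % 2 = 1 → (∀ p : ℕ, p.Prime → p ∣ n → p % 4 ≠ 3) → n % 4 = 1 := by
      intro n
      induction n using Nat.recOnMul with
      | zero => simp
      | one => simp
      | prime p hp => intro h1 h2; have := h2 p hp dvd_rfl; omega
      | mul a b ha hb =>
        intro h1 h2
        have h5 := Nat.odd_mul.1 (Nat.odd_iff.2 h1)
        rw [Nat.mul_mod, ha (Nat.odd_iff.1 h5.1) (fun p hp h => h2 p hp (h.mul_right _)),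
          hb (Nat.odd_iff.1 h5.2) (fun p hp h => h2 p hp (h.mul_left _))]
    have := key _ (by omega) hc
    omega
  refine ⟨j + 1, p, hp, h5, Int.natCast_dvd.2 h4, fun hT => ?_⟩
  exact hN p hp (j + 1) (((Finset.le_sup hT).trans hj).trans (Nat.le_succ _)) (Int.natCast_dvd.2 h4)

theorem norm_one {p : ℕ} [Fact p.Prime] {z : ℤ} (h : ¬ (p : ℤ) ∣ z) : padicNorm p z = 1 :=
  (padicNorm.int_eq_one_iff z).2 h

theorem mem_K {p : ℕ} [hp : Fact p.Prime] {j : ℕ} (h : (p : ℤ) ∣ sd j) :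
    (2 ^ j : ℤ) • RR ∈ KK p := by
  rw [mem_KK p (hasX_pow j), padicNorm.div, norm_pow, norm_pow, norm_one (fun h2 =>
    (Nat.prime_iff_prime_int.1 hp.out).not_unit ((sol j).co.isUnit_of_dvd' h2 h))]
  have h1 := padicNorm.int_lt_one_iff (p := p) (sd j) |>.2 h
  have h2 : 0 < padicNorm p (sd j) := lt_of_le_of_ne (padicNorm.nonneg _)
    (Ne.symm (padicNorm.nonzero (by exact_mod_cast (sol j).hd)))
  rw [one_pow, one_lt_div (by positivity)]
  nlinarith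

theorem mem_KT {p : ℕ} [hp : Fact p.Prime] {j : ℕ} (h : (p : ℤ) ∣ sa j) :
    (2 ^ j : ℤ) • RR + T0 ∈ KK p := by
  have pp := Nat.prime_iff_prime_int.1 hp.out
  have ha : (sa j : ℚ) ≠ 0 := by
    have := (sol j).ane
    have : sa j ≠ 0 := by intro h; rw [h] at this; omega
    exact_mod_cast this
  have hd : (sd j : ℚ) ≠ 0 := by exact_mod_cast (sol j).hd
  rw [mem_KK p ((hasX_pow j).addT (by positivity))]
  have e : -36 / ((sa j : ℚ) ^ 2 / (sd j : ℚ) ^ 2) = -(((6 * sd j : ℤ) : ℚ) ^ 2 / (sa j : ℚ) ^ 2) := by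
    push_cast; field_simp; norm_num
  rw [e, padicNorm.neg, padicNorm.div, norm_pow, norm_pow, norm_one (fun h2 =>
    pp.not_unit (((sol j).co6.mul_right (sol j).co).isUnit_of_dvd' h h2))]
  have h1 := padicNorm.int_lt_one_iff (p := p) (sa j) |>.2 h
  have h2 : 0 < padicNorm p (sa j) := lt_of_le_of_ne (padicNorm.nonneg _)
    (Ne.symm (padicNorm.nonzero ha))
  rw [one_pow, one_lt_div (by positivity)]
  nlinarith

theorem two_adic (j : ℕ) (m : ℤ) : (2 ^ j : ℤ) ∣ m ∨ ∃ i < j, ∃ k, m = 2 ^ i + k * 2 ^ (i + 1) := by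
  induction j with
  | zero => simp
  | succ j ih =>
    rcases ih with ⟨k, rfl⟩ | ⟨i, hi, k, h⟩
    · rcases Int.even_or_odd' k with ⟨l, rfl | rfl⟩
      · exact Or.inl ⟨l, by ring⟩
      · exact Or.inr ⟨j, by omega, l, by ring⟩
    · exact Or.inr ⟨i, by omega, k, h⟩

theorem unit_of_three {p : ℕ} [hp : Fact p.Prime] (h3 : p % 4 = 3) {X : ℚ}
    (h : padicNorm p (X ^ 2 + 1) < 1) : False := by
  have pp := Nat.prime_iff_prime_int.1 hp.out
  have e : ((X.num ^ 2 + (X.den : ℤ) ^ 2 : ℤ) : ℚ) = (X ^ 2 + 1) * ((X.den : ℤ) : ℚ) ^ 2 := by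
    push_cast
    rw [add_mul, ← mul_pow, Rat.mul_den_eq_num, one_mul]
  have h1 : (p : ℤ) ∣ X.num ^ 2 + (X.den : ℤ) ^ 2 := by
    rw [← padicNorm.int_lt_one_iff, e, padicNorm.mul, norm_pow]
    have := nle p (X.den : ℤ)
    have z := padicNorm.nonneg (p := p) ((X.den : ℤ) : ℚ)
    exact mul_lt_one_of_nonneg_of_lt_one_left (padicNorm.nonneg _) h (pow_le_one₀ z this)
  have h2 : ¬ (p : ℤ) ∣ X.num := fun h2 =>
    pp.not_unit ((Rat.isCoprime_num_den X).isUnit_of_dvd' h2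
      (pp.dvd_of_dvd_pow ((dvd_add_right (h2.trans (dvd_pow_self _ two_ne_zero))).1 h1)))
  refine ZMod.mod_four_ne_three_of_sq_eq_neg_sq (p := p) (x := (X.num : ZMod p))
    (y := ((X.den : ℤ) : ZMod p)) (by rwa [Ne, ZMod.intCast_zmod_eq_zero_iff_dvd]) ?_ h3
  have := (ZMod.intCast_zmod_eq_zero_iff_dvd _ p).2 h1
  push_cast at this ⊢
  linear_combination this

/-- Every rational solution has a bad denominator at one of the listed primes. -/
theorem covering {j b : ℕ} (hb : b.Prime) (h3 : b % 4 = 3) (hbj : (b : ℤ) ∣ sb j) (g : ℕ → ℕ)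
    (hg : ∀ i, (g i).Prime ∧ (g i : ℤ) ∣ sa i) {u β γ X Z : ℚ} (e1 : 1 - 6 * u ^ 2 = β ^ 2)
    (e2 : 1 + 6 * u ^ 2 = γ ^ 2) (e3 : X ^ 2 + 1 = u * Z) (n1 : padicNorm b Z ≤ 1)
    (n2 : ∀ i ≤ j, padicNorm (g i) u ≤ 1) : False := by
  have hu : u ≠ 0 := by rintro rfl; nlinarith [sq_nonneg X]
  have hQ := pt_hasX ((1 / u) ^ 2) (β * γ / u ^ 3) (by
    field_simp; linear_combination (-γ ^ 2) * e1 - (1 - 6 * u ^ 2) * e2)
  obtain ⟨m, hm⟩ := descent _ (1 / u) (β / u) (γ / u) rfl (by field_simp; linarith)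
    (by field_simp; linarith) _ hQ
  simp only at hm
  rw [← hm] at hQ
  rcases two_adic (j + 1) m with ⟨k, rfl⟩ | ⟨i, hi, k, rfl⟩
  · have := Fact.mk hb
    have := (KK b).zsmul_mem (mem_K (hbj.trans (sb_dvd j))) k
    rw [← mul_smul, mul_comm, mem_KK b hQ, norm_pow, padicNorm.div, padicNorm.one] at this
    have h2 : 0 < padicNorm b u := lt_of_le_of_ne (padicNorm.nonneg _)
      (Ne.symm (padicNorm.nonzero hu))
    have h4 : padicNorm b u < 1 := by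
      by_contra h
      push Not at h
      have : 1 / padicNorm b u ≤ 1 := (div_le_one h2).2 h
      have : (1 / padicNorm b u) ^ 2 ≤ 1 := pow_le_one₀ (by positivity) this
      linarith
    refine unit_of_three h3 (X := X) ?_
    rw [e3, padicNorm.mul]
    exact mul_lt_one_of_nonneg_of_lt_one_left h2.le h4 n1
  · have := Fact.mk (hg i).1
    have := add_mem (mem_KT (hg i).2) ((KK (g i)).zsmul_mem (mem_K ((hg i).2.trans (sa_dvd i))) k)
    rw [add_right_comm, ← mul_smul, ← add_zsmul, mem_KK _ (hQ.addT (by positivity))] at this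
    have e : -36 / (1 / u) ^ 2 = ((-36 : ℤ) : ℚ) * u ^ 2 := by push_cast; field_simp
    rw [e, padicNorm.mul, norm_pow] at this
    have := mul_le_one₀ (nle (g i) (-36)) (by positivity)
      (pow_le_one₀ (n := 2) (padicNorm.nonneg _) (n2 i (by omega)))
    linarith

def NegSq (M : ℤ) : Prop := ∃ x : ℤ, M ∣ x ^ 2 + 1

theorem negSq_of {M r s : ℤ} (h : IsCoprime s M) (h2 : M ∣ r ^ 2 + s ^ 2) : NegSq M := by
  obtain ⟨u, v, e⟩ := h
  obtain ⟨t, ht⟩ := h2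
  exact ⟨r * u, u ^ 2 * t + v * (1 + u * s), by
    linear_combination u ^ 2 * ht - (1 + u * s) * e⟩

theorem NegSq.sq {M : ℤ} (h : NegSq M) (ho : IsCoprime 2 M) : NegSq (M ^ 2) := by
  obtain ⟨x, t, ht⟩ := h
  refine negSq_of (r := x ^ 2 - 1) (s := 2 * x) (IsCoprime.pow_right (ho.mul_left ⟨-x, t, by
    linear_combination -ht⟩)) ⟨t ^ 2, by linear_combination (x ^ 2 + 1 + M * t) * ht⟩

theorem NegSq.mul {M N : ℤ} (h1 : NegSq M) (h2 : NegSq N) (hc : IsCoprime M N) : NegSq (M * N) := by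
  obtain ⟨x, hx⟩ := h1
  obtain ⟨y, hy⟩ := h2
  have hc' := hc
  obtain ⟨u, v, e⟩ := hc
  refine ⟨x * v * N + y * u * M, hc'.mul_dvd ?_ ?_⟩
  · have : (x * v * N + y * u * M) ^ 2 + 1 = (x ^ 2 + 1) +
        M * ((y - x) * u * (x * v * N + y * u * M + x)) := by
      linear_combination (x * (x * v * N + y * u * M + x)) * e
    rw [this]; exact dvd_add hx (dvd_mul_right _ _)
  · have : (x * v * N + y * u * M) ^ 2 + 1 = (y ^ 2 + 1) +
        N * ((x - y) * v * (x * v * N + y * u * M + y)) := by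
      linear_combination (y * (x * v * N + y * u * M + y)) * e
    rw [this]; exact dvd_add hy (dvd_mul_right _ _)

theorem negSq_sa (i : ℕ) : NegSq (sa i) := by
  cases i with
  | zero => exact ⟨2, by decide⟩
  | succ i =>
    exact negSq_of (r := sa i ^ 2) (s := 6 * sd i ^ 2) (sol i).nxt.symm
      (by rw [sa_succ]; exact dvd_of_eq (by ring))

theorem exists_X (G : Finset ℕ) (hG : ∀ p ∈ G, p.Prime ∧ ∃ i, (p : ℤ) ∣ sa i) (k : ℕ) :
    ∃ x : ℤ, ∀ p ∈ G, (p : ℤ) ^ k ∣ x ^ 2 + 1 := by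
  have h1 : ∀ p ∈ G, NegSq ((p : ℤ) ^ k) := by
    intro p hp
    obtain ⟨-, i, hi⟩ := hG p hp
    have o : IsCoprime 2 (p : ℤ) :=
      (IsCoprime.of_mul_right_left (y := 2) (z := 3) (sol i).co6).symm.of_isCoprime_of_dvd_right hi
    have : ∀ n : ℕ, NegSq ((p : ℤ) ^ 2 ^ n) := by
      intro n
      induction n with
      | zero => obtain ⟨x, hx⟩ := negSq_sa i; exact ⟨x, by simpa using hi.trans hx⟩
      | succ n ih => rw [pow_succ, pow_mul]; exact ih.sq o.pow_right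
    obtain ⟨x, hx⟩ := this k
    exact ⟨x, (pow_dvd_pow _ Nat.lt_two_pow_self.le).trans hx⟩
  have h2 : NegSq (∏ p ∈ G, (p : ℤ) ^ k) := by
    induction G using Finset.induction_on with
    | empty => exact ⟨0, by simp⟩
    | insert q G hq ih =>
      rw [Finset.prod_insert hq]
      refine (h1 q (by simp)).mul (ih (fun p hp => hG p (by simp [hp]))
        (fun p hp => h1 p (by simp [hp]))) (IsCoprime.prod_right (fun p hp => ?_))
      refine IsCoprime.pow (Nat.isCoprime_iff_coprime.2 ((Nat.coprime_primes (hG q (by simp)).1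
        (hG p (by simp [hp])).1).2 ?_))
      rintro rfl; exact hq hp
  obtain ⟨x, hx⟩ := h2
  exact ⟨x, fun p hp => (Finset.dvd_prod_of_mem _ hp).trans hx⟩

theorem noncover (G : Finset ℕ) (hG : ∀ p ∈ G, p.Prime ∧ ∃ i, (p : ℤ) ∣ sa i) :
    ∃ u β γ X Z : ℚ, 1 - 6 * u ^ 2 = β ^ 2 ∧ 1 + 6 * u ^ 2 = γ ^ 2 ∧ X ^ 2 + 1 = u * Z ∧
      ∀ p ∈ G, padicNorm p u ≤ 1 ∧ padicNorm p β ≤ 1 ∧ padicNorm p γ ≤ 1 ∧ padicNorm p X ≤ 1 ∧
        padicNorm p Z ≤ 1 := by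
  choose! i hi using fun p hp => (hG p hp).2
  let N := G.sup i + 1
  obtain ⟨x, hx⟩ := exists_X G hG (sd N).natAbs
  have s := sol N
  have ha : (sa N : ℚ) ≠ 0 := by
    have := s.ane
    have : sa N ≠ 0 := by intro h; rw [h] at this; omega
    exact_mod_cast this
  have hd : (sd N : ℚ) ≠ 0 := by exact_mod_cast s.hd
  have e1 : (sb N : ℚ) ^ 2 = sa N ^ 2 - 6 * sd N ^ 2 := by exact_mod_cast s.hb
  have e2 : (sc N : ℚ) ^ 2 = sa N ^ 2 + 6 * sd N ^ 2 := by exact_mod_cast s.hc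
  refine ⟨sd N / sa N, sb N / sa N, sc N / sa N, x, ((x ^ 2 + 1 : ℤ) : ℚ) * sa N / sd N,
    by field_simp; linarith, by field_simp; linarith, by push_cast; field_simp, fun p hp => ?_⟩
  have := Fact.mk (hG p hp).1
  have h1 : padicNorm p (sa N) = 1 := norm_one (fun h2 =>
    (Nat.prime_iff_prime_int.1 (hG p hp).1).not_unit (s.co.isUnit_of_dvd' h2
      ((hi p hp).trans ((sa_dvd _).trans (sd_dvd (Nat.succ_le_succ (Finset.le_sup hp)))))))
  refine ⟨by rw [padicNorm.div, h1, div_one]; exact nle _ _,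
    by rw [padicNorm.div, h1, div_one]; exact nle _ _,
    by rw [padicNorm.div, h1, div_one]; exact nle _ _, nle _ _, ?_⟩
  have h2 : 0 < padicNorm p (sd N) := lt_of_le_of_ne (padicNorm.nonneg _)
    (Ne.symm (padicNorm.nonzero hd))
  rw [padicNorm.div, padicNorm.mul, h1, mul_one, div_le_one h2]
  have h3 := padicNorm.dvd_iff_norm_le.1 (show ((p ^ (sd N).natAbs : ℕ) : ℤ) ∣ x ^ 2 + 1 by
    exact_mod_cast hx p hp)
  have h4 : ¬ ((p ^ (sd N).natAbs : ℕ) : ℤ) ∣ sd N := fun h => by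
    have := Nat.le_of_dvd (Int.natAbs_pos.2 s.hd) (Int.natCast_dvd.1 h)
    have := Nat.lt_pow_self (n := (sd N).natAbs) (hG p hp).1.one_lt
    omega
  rw [padicNorm.dvd_iff_norm_le] at h4
  exact h3.trans (not_le.1 h4).le

end Pool.Agent.H.MP_d0a72d_lc
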